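import Mathlib
import Pool.Agent.V1168.EF.Span
import Pool.Agent.V1168.EF.Both
import Pool.Agent.V1168.AB.Main

/-!
# The Tate conjecture over finitely generated fields for the products of **every** abelian variety with
abelian varieties: the exceptional factors have small dimension

Let `K i` (`i` in a set `I`, which may be **infinite**) be CM fields with pair flips (`PairFlips`): for
any two complex embeddings `φ` of `K i` and `ψ` of `K k` (with `i = k` or not) which are neither equal
nor complex conjugate, some automorphism of `ℂ` is the identity on `φ (K i)` and the complex conjugation
on `ψ (K k)`. One CM field `K` of degree `2 g` has this property if the Galois group of its normal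
closure is the largest possible one (of order `2 ^ g g!`), or contains, for each pair of complex
conjugate embeddings, an element which exchanges them and fixes all other embeddings, or contains all
the automorphisms that exchange two pairs in this sense (`g > 2`); several such fields with linearly
disjoint normal closures have it together (for example there are infinite families of imaginary
quadratic fields). We fix an isomorphism `ν` of the algebraic closure of `ℚ_p` with `ℂ`; it defines a
`p`-adic valuation `v` of `ℂ` with `v p = 1`. Let `π i` be a Weil number for `q = p ^ a` which
generates `K i` and whose slope vector, the function `2 v (φ π) - a` on the complex embeddings `φ` (`slopeVector`), is not zero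
(there are no other conditions on the slopes).

Let `Ω` be a finite set of complex numbers, stable under the automorphisms of `ℂ`, whose elements are
nonzero and lie in CM fields or in totally real fields (`IsStable`). A number `ρ` is generated by `Ω`
(`Generated p Ω`) if it is not zero and a power of it is a product of powers of elements of `Ω` and of a
power of `p`.

**The theorem: there is a finite subset `S` of `I` with `∑ [K i : ℚ] ≤ |Ω|`, the sum over `i` in `S`,
such that for all finite sets `J` disjoint from `S` the following statements about finitely generated
fields of characteristic `p` and of characteristic zero are true.** The set `S` depends only on `Ω` and the `π i`.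

**Characteristic `p`.** Let `f i`, `i` in `J`, be monic polynomials whose complex roots are conjugates of
`π i` (`IsPolyOf`), for instance the characteristic polynomials of Frobenius of the abelian varieties
`B i` in the isogeny classes of the `π i` over the field with `q` elements. Let `A` be an abelian
variety over the field with `Q = q ^ s` elements which is isogenous to a product of powers of abelian
varieties coming from the field with `q` elements, with characteristic polynomials `f i`, `i` in `J`
(`IsAbelian`). Let `X` be **any** abelian variety over a field `k` which is finitely generated over the field with `Q`
elements and in which it is algebraically closed (for instance over the finite field itself; or any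
other smooth projective variety), such that the eigenvalues of the Frobenius of the field of constants
on the spaces of the invariants of the geometric fundamental group (of an open part of a model of `k`)
in the cohomology of `X` are generated by `Ω` (`DiagGenerated`; for finite `k` these are all Frobenius
eigenvalues). Here `H^(2 j)` is always the space of these geometric invariants; the invariants of the
Galois group `G` of `k` are the elements fixed by the Frobenius of the field of constants.
Then there are products `D t` of `c t` divisor classes on `A`, finitely many (independent of `X`), such
that for all `j` every invariant element of `H^(2 j)(A × X, ℚ_ℓ(j))` is in a unique way the sum of the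
products of the `D t` with invariant elements of `H^(2 (j - c t))(X, ℚ_ℓ(j - c t))`, and **the
invariant classes of degree `j` on `A × X` are combinations of classes of cycles if and only if those of
degree `j - k` on `X` are, for all `k` with `0 ≤ k ≤ dim A`.** As all `s` are allowed this is true over
all finite extensions of the field of constants.

**Characteristic zero.** Let `A` be an abelian variety over a finitely generated field `k` of
characteristic zero, with
good reduction at ONE closed point of a model of `k`, the residue field having `q = p ^ a` elements, such that the characteristic polynomial of the
Frobenius element `γ` on the Tate module `V = V_ℓ (A)`, `ℓ ≠ p`, is the product of the minimal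
polynomials of the `π i`, `i` in `J`. Let `U` be **any** abelian variety
over `k`, with the Tate module `W`, and `M = H^1(U, ℚ_ℓ)^{⊗ b}(c)` (`cohomologyPower`; the twisted
cohomology groups of the powers of `U` are sums of summands of these), such that the eigenvalues of `γ` on `M` are roots of a rational polynomial, not zero, all of whose complex roots are
generated by `Ω`.
Then (`ClassesSplit`) **the classes in `H^j(A ^ r) ⊗ M` which are fixed by an open subgroup of `Γ` are
zero for odd `j`, and linear combinations of products of `m` Tate classes of degree two on `A ^ r` (that
is, of divisor classes, by Faltings) and of Tate classes in `M(-m)` for `j = 2 m`.** The classes in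
`H^j(A ^ r) ⊗ M` are the alternating maps of `j` variables from `V ^ r` to `M`. So for all these `A` and
`U` **the Tate conjecture for `A ^ r × U` (all `r`, over all finite extensions, all codimensions) is
equivalent to the Tate conjecture for `U`.** The hypotheses on `V` (`IsPolarised`) are the Weil pairing
and the semisimplicity (Faltings). Nothing is assumed on the semisimplicity of `M`.

**Such a set `Ω` exists for every `X` and every `U`** with good reduction at the point. For an abelian
variety `X` over a finite field, and for `U` with good reduction, the Frobenius eigenvalues on `H^1` are
sufficient, at most `2 dim X` or `2 dim U` numbers; and `Ω` is the same for all powers. So **the exceptional factors for `X` or `U` have together at most the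
dimension `|Ω| / 2`** (the factors with `f i = minpoly (π i)`, for instance the ordinary ones). The
bound is sharp: for `X = A` (or its powers) `Ω` has `2 dim A` elements, and all `i` in `J` are
exceptional, as there are divisor classes in `H^1(A) ⊗ H^1(X)`. For instance, the Tate conjecture is true for `A × X`
and `A ^ r × U` if `X`, `U` are abelian varieties of dimension at most three, and the dimension of the
exceptional factors is at most three (for `X` over a finite field and `U` with good reduction).

The results of the starting files of this kind are about varieties whose Frobenius eigenvalues are
unrelated to the fields `K i`, or have small degree or small slopes. **Here the Frobenius eigenvalues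
of `X` and `U` are arbitrary**: they may generate the same fields `K i`, or fields containing them.

The framework for characteristic `p`: the Chow ring and the ring of correspondences of `A`, with rational
coefficients, and
the cohomology of `A` with complex coefficients (we choose an isomorphism of the algebraic closure of
`ℚ_ℓ` with `ℂ`), with the formal properties and the theorems of Tate on divisors and of Kimura on the
nilpotence of homologically trivial correspondences (`AbelianData`, `IsAbelian`); the Chow groups
`T^(2 j)(X, j) = CH^j(X)` and `T^(2 j)(A × X, j) = CH^j(A × X)` with rational coefficients, and the
geometric invariants `R^(2 j)(X, j)` and `R^(2 j)(A × X, j)` in the cohomology over the algebraic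
closure (they contain all Galois invariants), vector spaces over
`L = ℚ_ℓ` (`IsLinear`), both with the products with classes on `A`, the push-forward from `A × X` to `X`,
the operation of the correspondences from `A` to `A` and the Frobenius of the field of constants
through `X` (`frobN`, `frobM`; `RelData`, `IsRel`), and the cycle class map `ρ` (`IsRegulator`; `SpanData`, `IsSpanTheory`).
The Frobenius endomorphism of `A × X` is the product of the ones of `A` and `X`; the elements of
`H^(2 j)` which it multiplies by `Q ^ j` are the ones of `InvN` (for `X`) and `InvM` (for `A × X`),
and the linear spans of the classes of the cycles are `spanN` and `spanM`.

The proof. Let `x i` be the slope vectors of the `π i`. If a power of a number `ρ` generated by `Ω` is the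
corresponding power of a product of conjugates of the `π i`, let `n i φ` be the multiplicity of `φ`
minus the one of the conjugate of `φ`. Computing valuations, the function `σ ↦ ∑ n i φ * x i (σ φ)` of
the automorphisms `σ` of `ℂ` (the sum over all `i` and all embeddings `φ`) is in the space `F` spanned by
the functions `σ ↦ v (σ β) - v (conj (σ β))`, `β` in `Ω`. This space is stable under translations. So we
can average over the automorphisms which fix a given embedding `φ₀` of `K i`: by the pair flips the
average of an odd function is zero except at `φ₀` and its conjugate, so that the function
`σ ↦ x i (σ φ₀)` is in `F` if `n i φ₀` is not zero, and then the same is true for all embeddings of this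
field `K i` (`EF.orb_mem`). Let `S` be the set of all `i` such that these functions are in `F`. Again by
the pair flips, the functions `σ ↦ x i (σ φ)`, for all `i` and one `φ` out of each complex conjugate
pair, are linearly independent. As the dimension of `F` is at most `|Ω| / 2` (conjugate `β` give
opposite functions), `∑ [K i : ℚ] / 2`, the sum over `S`, is at most `|Ω| / 2`
(`EF.exists_exceptional`), and outside of `S` all `n i` are zero (`EF.forces_of`). So the components
of a Tate class in the eigenspaces of `γ` belong to products of pairs of conjugate numbers; by the
semisimplicity, and as the angle rank is maximal (the case `Ω = ∅`), the Lie algebra of the
endomorphisms of `V` which kill all the components is over a finite extension a product of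
symplectic and general linear Lie algebras, and the first fundamental theorem of invariant theory
gives the result (`EV.split_of_forces`, as in the starting files H204R3, Y137 and Y1.TS).
For characteristic `p` the same argument shows that there are no multiplicative relations between the
numbers generated by `Ω`, the roots of the `f i` and `q`, except for the trivial ones
(`EF.exactPair_of`). If a Weil number `α` of the cohomology of `A` and a number `ρ` as above have the product `Q ^ j`, then
`α = Q ^ k` and `α` is a product of pairs of complex conjugate numbers, so that the eigenvectors of the
Frobenius endomorphism of `A` for `α` are products of divisor classes. There are products `D t` of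
`c t` divisor classes on `A` with a dual system `E t` for the intersection pairing; let `p` be the
projector given by them. For a suitable polynomial `P` the correspondence `(1 - p) P (F)` is
homologically trivial, hence nilpotent, and `P (F)` is invertible on the eigenspace of the Frobenius
endomorphism of `A × X` for `Q ^ j`. So `p` acts as the identity: `w = ∑ D t × (E t)_* w` for all `w` in
this eigenspace. The semisimplicity of Frobenius is not used. The `D t × w`
and the maps `(E t)_*` respect the invariants and the spans of the classes of cycles
(`EF.tateSpanTimes`).
-/

set_option autoImplicit false

namespace Pool.Agent.Results.MP_7b53ad_ag.EveryVarietyTimes

open NumberField IntermediateField Pool.Agent.V1168.EF Pool.Agent.V1168.AB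
open Pool.Agent.V1168.EV (PairFlips slopeVector)

/-- **For all abelian varieties `X` and `U` over finitely generated fields, of
characteristic `p` and of characteristic zero, whose Frobenius eigenvalues are generated by the stable finite set `Ω`, and all abelian varieties `A` given
by Weil numbers in a family of CM fields with pair flips, without factors in an exceptional set `S`
with `∑ [K i : ℚ] ≤ |Ω|`: the Tate classes of degree `j` on `A × X` fixed by the Galois group are algebraic if and only if
those of degree `j - k` on `X` are, `0 ≤ k ≤ dim A`; and the Tate classes on `A ^ r × U` are linear combinations
of products of divisor classes on `A ^ r` and Tate classes on `U`.** -/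
theorem result {p : ℕ} [Fact p.Prime] (ν : PadicAlgCl p ≃+* ℂ) {I : Type}
    (K : I → Type) [∀ i, Field (K i)] [∀ i, NumberField (K i)] [∀ i, IsCMField (K i)]
    (hK : PairFlips K) (a : ℕ) (ha : 0 < a) (π : ∀ i, K i) (hgen : ∀ i, ℚ⟮π i⟯ = ⊤)
    (hπ : ∀ i, π i * IsCMField.complexConj (K i) (π i) = (p : K i) ^ a)
    (hs : ∀ i, ∃ φ, slopeVector ν a (π i) φ ≠ 0) (Ω : Finset ℂ) (hΩ : IsStable Ω) :
    ∃ S : Finset I, ∑ i ∈ S, Module.finrank ℚ (K i) ≤ Ω.card ∧
      ForAllPolys π (p ^ a) S (fun _ q f => TateSpanTimes p Ω q f) ∧
      ∀ J : Finset I, Disjoint J S →
        AbelianClassesSplit (Generated p Ω) p a (fun i : {i // i ∈ J} => K i.1)
          (fun i => π i.1) := by
  obtain ⟨S, hS, h, h'⟩ := exists_factors_both ν hK ha hgen hπ hs hΩ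
  exact ⟨S, hS, h _ fun J q f hq hR => tateSpanTimes hq hR, fun J hJ => abelian_of_split (h' J hJ)⟩

end Pool.Agent.Results.MP_7b53ad_ag.EveryVarietyTimes
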