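import Pool.Agent.V1161.Triples

/-!
# The Tate conjecture for abelian varieties of Fermat type over finitely generated fields

Let `k` be a finitely generated field of characteristic zero or of a characteristic congruent to one
modulo `m`, and let `A` be an abelian variety over `k` of Fermat type of degree `m`: over the
algebraic closure it is isogenous to a product of simple factors of the Jacobian variety of the
Fermat curve `x ^ m + y ^ m + z ^ m = 0`. The cohomology of degree `2 * p` of `A` is a sum of tensor
products of `2 * p` lines `V(b)`, `b` a triple of nonzero residues modulo `m` with sum zero. At a place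
with residue field `F`, after a finite extension of `k`, the Frobenius endomorphism acts on `V(b)` by
`- q⁻¹ * ∏ g(χ ^ a)` (Weil). By Chebotarev the tensor product is a Tate class if and only if the
product of the eigenvalues is `q ^ p` times a root of unity, of an order not depending on the place.

The theorem: if at ONE place with residue characteristic congruent to one modulo `m` the product of
the eigenvalues is `q ^ p` times a root of unity, then the tensor product is algebraic, if
`lcm(2, m₀)` is good: `m₀` is the part of `m` composed of the small primes, those below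
`6 * c * p + 2`, where `c` is `1`, `2`, `2`, `4` if the greatest common divisor of `m` and `6` is `1`,
`2`, `3`, `6`; for odd `m` the primes from `6 * p + 2` to `19` are not counted as small. There is no
condition on the other primes. So the Tate conjecture holds in all codimensions up to `p` for all
these abelian varieties (and even for the classes fixed by a power of one Frobenius element as
above). For the algebraic lines see `Pool.Agent.Results.MP_e12fcd_ag.FermatAllDimensions`; the
algebraic cycles in characteristic zero specialise to positive characteristic.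
-/

namespace Pool.Agent.Results.MP_7b53ad_ag.FermatType

open Pool.Agent.H916R2 Pool.Agent.Y2.Cv Pool.Agent.V1161

/-- The eigenvalue of the Frobenius endomorphism on the line of the triple `b` in the first
cohomology group of the Fermat curve over the finite field `F`. -/
noncomputable def eigenvalue {m : ℕ} {F : Type} [Field F] [Fintype F] (χ : MulChar F ℂ)
    (ψ : AddChar F ℂ) (b : Multiset (ZMod m)) : ℂ :=
  -(b.map fun a => gaussSum (χ ^ a.val) ψ).prod / (Fintype.card F : ℂ)

lemma eigenvalue_prod {m : ℕ} {F : Type} [Field F] [Fintype F] (χ : MulChar F ℂ)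
    (ψ : AddChar F ℂ) (T : Multiset (Multiset (ZMod m))) :
    (T.map (eigenvalue χ ψ)).prod =
      (-1) ^ Multiset.card T * gprod T.join χ ψ / (Fintype.card F : ℂ) ^ Multiset.card T := by
  induction T using Multiset.induction_on with
  | empty => simp [gprod]
  | cons b T ih =>
    have h1 : gprod (b ::ₘ T).join χ ψ =
        (b.map fun a => gaussSum (χ ^ a.val) ψ).prod * gprod T.join χ ψ := by
      unfold gprod
      rw [Multiset.join_cons, Multiset.map_add, Multiset.prod_add]
    rw [Multiset.map_cons, Multiset.prod_cons, ih, h1, Multiset.card_cons]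
    unfold eigenvalue
    have hq : (Fintype.card F : ℂ) ≠ 0 := by exact_mod_cast Fintype.card_ne_zero
    field_simp
    ring

/-- **Tate classes on abelian varieties of Fermat type.** -/
theorem result (p m : ℕ) (hp : 0 < p) (hm : 2 ≤ m)
    (hgood : GoodDegree2 (Nat.lcm 2 (smallPart (6 * p) m)))
    (ℓ : ℕ) (hℓ : ℓ.Prime) (hℓm : ℓ ≡ 1 [MOD m]) (F : Type) [Field F] [Fintype F] [CharP F ℓ]
    (χ : MulChar F ℂ) (hχ : orderOf χ = m) (ψ : AddChar F ℂ) (hψ : ψ ≠ 1)
    (T : Multiset (Multiset (ZMod m))) (hcard : Multiset.card T = 2 * p)
    (hT : ∀ b ∈ T, Multiset.card b = 3 ∧ (0 : ZMod m) ∉ b ∧ b.sum = 0) (k : ℕ) (hk : 0 < k)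
    (hF : (T.map (eigenvalue χ ψ)).prod ^ k = ((Fintype.card F : ℂ) ^ p) ^ k) :
    Generated (Nat.lcm 2 m) (SurfaceOrCurveProduct (Nat.lcm 2 m))
      (T.join.map fun a => ((Nat.lcm 2 m / m * a.val : ℕ) : ZMod (Nat.lcm 2 m))) := by
  have hJ := join_props hT
  have hc : Multiset.card T.join = 6 * p := by rw [hJ.2.1, hcard]; ring
  have hq : (Fintype.card F : ℂ) ≠ 0 := by exact_mod_cast Fintype.card_ne_zero
  have hne : T.join ≠ 0 := by
    intro h
    rw [h, Multiset.card_zero] at hc
    omega
  have hH : IsHodge m T.join := by
    refine hodge_field hm hJ.1 (by rw [hc]; exact ⟨3 * p, by ring⟩) hJ.2.2 hℓ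
      (((ZMod.natCast_eq_natCast_iff ℓ 1 m).mpr hℓm).trans Nat.cast_one) hχ hψ hk ?_
    rw [eigenvalue_prod, hcard, pow_mul (-1 : ℂ), neg_one_sq, one_pow, one_mul, div_pow,
      div_eq_iff (pow_ne_zero _ (pow_ne_zero _ hq))] at hF
    rw [hF, hc, show 6 * p / 2 = p + 2 * p by omega, pow_add, mul_pow]
  exact uniform (N := 6 * p) (by omega) hgood _ hH hc.le hne

end Pool.Agent.Results.MP_7b53ad_ag.FermatType
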